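import Pool.Agent.H38.EX.ST0X

set_option autoImplicit false

open MeasureTheory ProbabilityTheory Filter Topology
open scoped ENNReal
open Pool.Agent.H95 Pool.Agent.H95.Cop Pool.Agent.H96.Cop Pool.Agent.H99.CE Pool.Agent.H98.EX

namespace Pool.Agent.H38.EX

theorem pf_S1X (hPFM : Pool.Agent.H99.CE.T_PFM) (hINS : Pool.Agent.H99.CE.T_INS)
    (hCCT : Pool.Agent.H99.CE.T_CCT) (hASP : Pool.Agent.H99.CE.T_ASP)
    (hLNK : Pool.Agent.H99.CE.T_LNK) (hKHT : Pool.Agent.H99.CE.T_KHT) (hSUX : T_SUX)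
    (hSHX : T_SHX) (hESX : T_ESX) (hCBX : T_CBX) (hNAX : T_NAX) (hSLX : T_SLX)
    (hSMX : T_SMX) : T_S1X := by
  intro K ν _ α s e c δ h P ε X M n0 k B hPre hc hR hk hkB hn0 hX hQT p p0 p1 hQN
  obtain ⟨q0, q1, hh8, et0, et1, etd, a2P, θ0, θ1⟩ := stx_real hPre p0 p1
  obtain ⟨hna, ht, hnM, htM, hn, hsθ, hs, hnt⟩ :=
    hNAX e α s c δ k B M hPre.α0 hPre.s0 hPre.e0 hc hPre.δ0 hk hkB hPre.M1
  have he := hPre.e0
  have hs0 := hPre.s0
  have hε := hPre.ε0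
  have hP0 : 0 ≤ P := by linarith [hPre.P1]
  have hM0 : (0 : ℝ) < M := by exact_mod_cast hPre.M1
  have hcore := fun J => stx_core hINS hASP hLNK hSUX hKHT hSHX hESX hNAX hSLX hSMX K ν hPre hc hR
    hk hkB hn0 hQT p0 p1 (g := 0) (er := 1) le_rfl zero_le_one hQN
    (φ := fun x => x ^ te α s) (u := fun _ => 0) (hCCT.1 _ θ0 θ1)
    (fun x y hxy => ENNReal.rpow_le_rpow hxy θ0.le) measurable_const (fun x _ => by simp)
    (fun _ _ _ _ => le_rfl) (fun _ _ _ _ _ _ => by simp) (fun n => by simp) J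
  unfold QTe
  rw [hnM]
  apply ENNReal.div_le_of_le_mul
  apply ENNReal.tsum_le_of_sum_range_le
  intro J
  refine (hcore J).trans ?_
  have hcb := (hCBX α (tb α c δ B) (te α s) s (72 * e * P) P e M J hPre.α0 hPre.α1 ht θ0 θ1 hsθ
    hs0 et0 et1 hP0 he a2P hPre.M1).1
  have hreal := stx_cb hNAX hPre hc hk hkB hX
  have hq1 : 0 < 1 - (1 + ε) * h * p := by linarith
  have hh0 := hPre.h0
  refine (add_le_add hcb le_rfl).trans ?_
  rw [← ENNReal.ofReal_add (by positivity) (by positivity), ← ENNReal.ofReal_mul (by positivity)]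
  apply ENNReal.ofReal_le_ofReal
  have h0 : 0 ≤ (e * P * tb α c δ B * M) ^ te α s * (4 + 1 / s) := by positivity
  have h1 : (M : ℝ) * ue e α s c δ k B * ((1 + ε) ^ 2 * (0 / (1 - (1 + ε) * h * p) ^ 2 +
      1 * p / (1 - (1 + ε) * h * p))) =
      ((1 + ε) ^ 2 * p / (1 - (1 + ε) * h * p)) * (M * ue e α s c δ k B) := by
    field_simp
    ring
  rw [h1, add_mul]
  linarith

end Pool.Agent.H38.EX
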